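import Pool.Agent.W793.SCH.Stm

namespace Pool.Agent.W141.SCH

open Pool.Agent.W793.SCH Filter
open scoped Topology

lemma tele (a b : ℝ) (ha : 0 < a) (hb : 0 < b) (h : b ^ 2 = a ^ 2 + 1) :
    1 / b ^ 3 ≤ 2 / a - 2 / b := by
  have hab : a < b := by nlinarith
  have h1 : (b - a) * (b + a) = 1 := by nlinarith
  have h2 : 1 / (b ^ 3) ≤ 2 * (b - a) / (a * b) := by
    rw [div_le_div_iff₀ (by positivity) (by positivity)]
    have h3 : 1 ≤ (b - a) * (2 * b) := by nlinarith
    have h4 : a * b ≤ b ^ 2 := by nlinarith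
    calc 1 * (a * b) ≤ ((b - a) * (2 * b)) * (b ^ 2) := by
          have : 0 < b ^ 2 := by positivity
          nlinarith
      _ = 2 * (b - a) * b ^ 3 := by ring
  have h3 : 2 / a - 2 / b = 2 * (b - a) / (a * b) := by
    field_simp
  rw [h3]; exact h2

lemma part (d : ℕ) (hd : 3 ≤ d) (C : ℝ) (hC : 0 < C) (z : Fin d → ℤ)
    (h : ∀ k : ℕ, 1 ≤ k → pk d k z ≤ C / Real.sqrt k ^ d) (K : ℕ) (hK : 1 ≤ K) (n : ℕ) :
    ∑ i ∈ Finset.range (n + 1), pk d (K + i) z ≤
      C * (3 / Real.sqrt K - 2 / Real.sqrt ((K + n : ℕ) : ℝ)) := by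
  have h3 : ∀ k : ℕ, 1 ≤ k → pk d k z ≤ C * (1 / Real.sqrt k ^ 3) := by
    intro k hk
    refine (h k hk).trans ?_
    have h1 : 1 ≤ Real.sqrt (k : ℝ) := by
      rw [Real.one_le_sqrt]; exact_mod_cast hk
    rw [mul_one_div]
    apply div_le_div_of_nonneg_left hC.le (by positivity)
    exact pow_le_pow_right₀ h1 hd
  induction n with
  | zero =>
    have h1 : 1 ≤ Real.sqrt (K : ℝ) := by
      rw [Real.one_le_sqrt]; exact_mod_cast hK
    simp only [zero_add, Finset.range_one, Finset.sum_singleton, add_zero]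
    refine (h3 K hK).trans ?_
    apply mul_le_mul_of_nonneg_left _ hC.le
    have h2 : 1 / Real.sqrt (K : ℝ) ^ 3 ≤ 1 / Real.sqrt (K : ℝ) ^ 1 :=
      one_div_le_one_div_of_le (by positivity) (pow_le_pow_right₀ h1 (by norm_num))
    rw [pow_one] at h2
    have h4 : 3 / Real.sqrt (K : ℝ) - 2 / Real.sqrt (K : ℝ) = 1 / Real.sqrt (K : ℝ) := by ring
    rw [h4]; exact h2
  | succ n ih =>
    rw [Finset.sum_range_succ]
    have h1 : pk d (K + (n + 1)) z ≤ C * (2 / Real.sqrt ((K + n : ℕ) : ℝ) -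
        2 / Real.sqrt ((K + (n + 1) : ℕ) : ℝ)) := by
      refine (h3 (K + (n + 1)) (by omega)).trans ?_
      apply mul_le_mul_of_nonneg_left _ hC.le
      apply tele
      · apply Real.sqrt_pos.mpr; exact_mod_cast (by omega : 0 < K + n)
      · apply Real.sqrt_pos.mpr; exact_mod_cast (by omega : 0 < K + (n + 1))
      · rw [Real.sq_sqrt (by positivity), Real.sq_sqrt (by positivity)]
        push_cast; ring
    calc _ ≤ C * (3 / Real.sqrt K - 2 / Real.sqrt ((K + n : ℕ) : ℝ)) +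
        C * (2 / Real.sqrt ((K + n : ℕ) : ℝ) - 2 / Real.sqrt ((K + (n + 1) : ℕ) : ℝ)) :=
          add_le_add ih h1
      _ = _ := by ring

lemma part' (d : ℕ) (hd : 3 ≤ d) (C : ℝ) (hC : 0 < C) (z : Fin d → ℤ)
    (h0 : ∀ k : ℕ, 0 ≤ pk d k z)
    (h : ∀ k : ℕ, 1 ≤ k → pk d k z ≤ C / Real.sqrt k ^ d) (K : ℕ) (hK : 1 ≤ K) (n : ℕ) :
    ∑ i ∈ Finset.range n, pk d (K + i) z ≤ 3 * C / Real.sqrt K := by
  have h1 : ∑ i ∈ Finset.range n, pk d (K + i) z ≤ ∑ i ∈ Finset.range (n + 1), pk d (K + i) z := by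
    rw [Finset.sum_range_succ]; linarith [h0 (K + n)]
  refine h1.trans ((part d hd C hC z h K hK n).trans ?_)
  have h2 : 0 ≤ C * (2 / Real.sqrt ((K + n : ℕ) : ℝ)) := by positivity
  have h3 : 3 * C / Real.sqrt (K : ℝ) = C * (3 / Real.sqrt K) := by ring
  rw [h3, mul_sub]; linarith

theorem t_TR (hS : S_SUP) : S_TR := by
  intro d hd
  obtain ⟨C, hC, hS⟩ := hS d (by omega)
  have hp := fun z => part' d hd C hC z (fun k => (hS k z).1) (fun k => (hS k z).2)
  have hsum : ∀ (z : Fin d → ℤ), Summable fun k => pk d k z := by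
    intro z
    rw [← summable_nat_add_iff 1]
    have : (fun n : ℕ => pk d (n + 1) z) = fun n => pk d (1 + n) z := by
      funext n; rw [add_comm]
    rw [this]
    exact summable_of_sum_range_le (fun n => (hS (1 + n) z).1) (hp z 1 le_rfl)
  have htail : ∀ (z : Fin d → ℤ) (K : ℕ), 1 ≤ K → ∑' i, pk d (i + K) z ≤ 3 * C / Real.sqrt K := by
    intro z K hK
    apply Real.tsum_le_of_sum_range_le (fun n => (hS (n + K) z).1)
    intro n
    have := hp z K hK n
    simpa [add_comm] using this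
  have hd1 : (1 : ℝ) ≤ 4 * d := by
    have : (3 : ℝ) ≤ d := by exact_mod_cast hd
    linarith
  have hq : (1 : ℝ) / (4 * d) ≤ 1 := by
    rw [div_le_one (by linarith)]; exact hd1
  have hq0 : (0 : ℝ) ≤ 1 / (4 * d) := by positivity
  refine ⟨6 * C + 1, by linarith, hsum, ?_, ?_⟩
  · intro z
    have h0 : 0 ≤ ∑' k, pk d k z := tsum_nonneg fun k => (hS k z).1
    have h1 : ∑' k, pk d k z ≤ 1 + 3 * C := by
      rw [(hsum z).tsum_eq_zero_add]
      have h2 : pk d 0 z ≤ 1 := by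
        simp only [pk]; split_ifs <;> norm_num
      have h3 := htail z 1 le_rfl
      simp at h3
      linarith
    unfold green
    rw [abs_of_nonneg (by positivity)]
    calc 1 / (4 * (d : ℝ)) * ∑' k, pk d k z ≤ 1 * ∑' k, pk d k z :=
          mul_le_mul_of_nonneg_right hq h0
      _ ≤ 6 * C + 1 := by linarith
  · intro K z hK
    have h1 : ∑ i ∈ Finset.range K, pk d i z + ∑' i, pk d (i + K) z = ∑' i, pk d i z :=
      (hsum z).sum_add_tsum_nat_add K
    have h2 : gK d K z - green d z = -(1 / (4 * (d : ℝ)) *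
        (∑ k ∈ Finset.range K, pk d (K + k) z + ∑' i, pk d (i + K) z)) := by
      unfold gK green
      rw [← h1, Finset.sum_sub_distrib]; ring
    have h3 : 0 ≤ ∑ k ∈ Finset.range K, pk d (K + k) z := Finset.sum_nonneg fun k _ => (hS _ z).1
    have h4 : 0 ≤ ∑' i, pk d (i + K) z := tsum_nonneg fun k => (hS _ z).1
    have h5 := hp z K hK K
    have h6 := htail z K hK
    have hs : 0 ≤ 1 / Real.sqrt (K : ℝ) := by positivity
    rw [h2, abs_neg, abs_of_nonneg (by positivity)]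
    calc 1 / (4 * (d : ℝ)) * (∑ k ∈ Finset.range K, pk d (K + k) z + ∑' i, pk d (i + K) z)
        ≤ 1 * (∑ k ∈ Finset.range K, pk d (K + k) z + ∑' i, pk d (i + K) z) :=
          mul_le_mul_of_nonneg_right hq (by positivity)
      _ ≤ 3 * C / Real.sqrt K + 3 * C / Real.sqrt K := by linarith
      _ ≤ (6 * C + 1) / Real.sqrt K := by
          have : (6 * C + 1) / Real.sqrt K = 3 * C / Real.sqrt K + 3 * C / Real.sqrt K +
            1 / Real.sqrt K := by ring
          linarith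

end Pool.Agent.W141.SCH
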